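import Pool.Agent.N19.BR.KMain

/-!
# The Bloch–Kato order of vanishing formula: relations over number fields with hyperelementary Galois
action, large local degrees and at most two real places

`K` is a number field, `L` a finite Galois extension of `K` and `S` a finite set of primes of `K`.  A
polarized motive `M` over `K` enters through the eigenvalues `α v` of the geometric Frobenius at the primes
`v` of `K` (weight `-1`), and, for a prime `p`, through the representations `ρ₁` and `ρ₀` of the absolute
Galois group of `K` on the unions of the spaces `H¹_f(F, M_p)` and `H⁰(F, M_p)`.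

The proof.  There is a relation `∑ e_j [F_j] = [K]`, with coefficient `1` on the right, between the
permutation characters of finite extensions `F_j` of `K` with the properties below (`Pool.Agent.N19.BR`).
It gives `L(M, s) = R(s) ∏ L(M_{F_j}, s) ^ e_j`, with `R` from the Euler factors at finitely many primes,
and the relation `∑ e_j dim V^{G_{F_j}} = dim V^{G_K}` for `V = ρ₁` and `V = ρ₀`.

The definitions are in `Pool.Agent.N19.BR.KDefs`, `ADefs`, `BBDefs`, `MDefs`, `TDefs` and `Defs`.
-/

set_option autoImplicit false

namespace Pool.Agent.Results.MP_ec4e4b_nt.BlochKatoDescent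

open NumberField IsDedekindDomain Pool.Agent.N19.BR.TDef Pool.Agent.N19.BR.MDef

/-- **The Bloch–Kato formula.**  Let `L/K` be a finite Galois extension of number fields, `S` a finite
set of primes of `K` and `k ≥ 1`.  There is a list of number fields `F_j ⊇ K` with integers `e_j`, such that
for every `j` there is a prime number `q` for which the Galois group of `L F_j / F_j` is
`q`-hyperelementary, the divisors of `k` prime to `q` divide the local degrees of `F_j / K` at the primes above
`S`, and `F_j` has at most two real places if `q ≠ 2`, and such that the following holds for ALL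
polarized motives `M` over `K`, all primes `p` and all connected `U` that contain `0` and the half-plane
`Re s > 1/2`: if over all `F_j` the function `L(M_{F_j}, s)` has a meromorphic continuation to `U` and
`ord_{s=0} L(M_{F_j}, s) = dim H¹_f - dim H⁰ + δ_j`, then `L(M, s)` has a meromorphic continuation to `U`
and `ord_{s=0} L(M, s) = dim H¹_f - dim H⁰ + ∑ e_j δ_j`.

In particular the formula over the `F_j` (`δ_j = 0`) implies the formula over `K`. -/
theorem result (K : Type) [Field K] [NumberField K] (L : Type) [Field L] [NumberField L]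
    [Algebra K L] [IsGalois K L] (S : Set (HeightOneSpectrum (𝓞 K))) (hS : S.Finite) (k : ℕ)
    (hk : k ≠ 0) :
    ∃ Y : FieldList K, HyperelementaryList L S k Y ∧
      ∀ (N : ℕ) (α : HeightOneSpectrum (𝓞 K) → Fin N → ℂ), Pure (-1) α →
      ∀ (p : ℕ) [Fact p.Prime] (V₁ V₀ : Type) [AddCommGroup V₁] [Module ℚ_[p] V₁]
        [AddCommGroup V₀] [Module ℚ_[p] V₀]
        (ρ₁ : Representation ℚ_[p] Gal(AlgebraicClosure K/K) V₁)
        (ρ₀ : Representation ℚ_[p] Gal(AlgebraicClosure K/K) V₀) (U : Set ℂ), Region (-1) U →
        (0 : ℂ) ∈ U → ∀ δ : Fin Y.r → ℤ, (∀ j, BlochKato ρ₁ ρ₀ α U (δ j) (Y.F j)) →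
          BlochKatoOverBase ρ₁ ρ₀ α U (∑ j, Y.e j * δ j) := by
  obtain ⟨Y, hY, hrel⟩ := Pool.Agent.N19.BR.hyper_list K L S hS k hk
  exact ⟨Y, hY, fun N α hα p _ V₁ V₀ _ _ _ _ ρ₁ ρ₀ U hU h0 δ hF =>
    Pool.Agent.N19.BR.blochKato_of_rel ρ₁ ρ₀ hrel hα hU h0 hF⟩

end Pool.Agent.Results.MP_ec4e4b_nt.BlochKatoDescent
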